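import Pool.Agent.MP_ebf3a9_co.H25.Asym
import Pool.Agent.MP_ebf3a9_co.H25.Poly

/-!
The exponent of the partition complexity of fat axis-aligned `k`-flats, up to a factor tending to
one as the dimension grows.
-/

namespace Pool.Agent.Results.MP_ebf3a9_co.Asymptotic

open Pool.Agent.MP_ebf3a9_co.H25
open scoped ENNReal

theorem result (ε : ℝ) (hε : 0 < ε) : ∃ D : ℕ, ∀ d k : ℕ, 1 < k → k < d → ∀ α : ℝ, 1 ≤ α →
    ∀ G : ℝ, G = (3 * ((d : ℝ) - k) + √(9 * ((d : ℝ) - k) ^ 2 + 16 * d)) / 8 →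
      ∃ c C : ℝ, 0 < c ∧ 0 < C ∧ ∀ n : ℕ, 2 ≤ n →
        (D ≤ d → ENNReal.ofReal (c * (n : ℝ) ^ ((1 - ε) * min ((d : ℝ) / (d - k)) G)) ≤
          (piGen d k α n : ℝ≥0∞)) ∧
        piGen d k α n ≤ piPerp d k α n ∧
        (piPerp d k α n : ℝ≥0∞) ≤ ENNReal.ofReal
          (C * (n : ℝ) ^ (min ((d : ℝ) / (d - k)) (min (G + 1) √d) + ε)) := by
  obtain ⟨D, hD⟩ := lower_asym (ε := min (ε / 2) (1 / 2)) (by positivity)
    ((min_le_right _ _).trans (by norm_num))
  refine ⟨D, fun d k _ hk α hα G hG => ?_⟩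
  have hc0 : (0 : ℝ) < d - k := by rw [sub_pos]; exact_mod_cast hk
  have hd0 : (0 : ℝ) < d := by exact_mod_cast (show 0 < d by omega)
  have hq := covered_quad hk
  rw [← hG, add_comm] at hq
  obtain ⟨C, hC, u⟩ := ((covered_div hk).min (hq.min (covered_sqrt hk))).upper hk α hε
  by_cases h : D ≤ d
  · have hE : 0 < min ((d : ℝ) / (d - k)) G := lt_min (by positivity) (by rw [hG]; positivity)
    have hl := hD d k h hk
    rw [← hG] at hl
    have h1 := min_le_left (ε / 2) (1 / 2)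
    have h2 := min_le_right (ε / 2) (1 / 2)
    obtain ⟨c, hc, l⟩ := hl.poly (e' := (1 - ε) * min ((d : ℝ) / (d - k)) G)
      (mul_pos (by linarith) hE) (mul_lt_mul_of_pos_right (by linarith) hE)
    exact ⟨c, C, hc, hC, fun n hn => ⟨fun _ => l α hα n hn, piGen_le_piPerp d k α n,
      u n (by omega)⟩⟩
  · exact ⟨1, C, one_pos, hC, fun n hn => ⟨fun h' => absurd h' h, piGen_le_piPerp d k α n,
      u n (by omega)⟩⟩

end Pool.Agent.Results.MP_ebf3a9_co.Asymptotic
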