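import Pool.Agent.MP_ebf3a9_co.H25.Dicho

/-!
When is the exponent `d / (d - k)` the truth for fat axis-aligned `k`-flats?
-/

namespace Pool.Agent.Results.MP_ebf3a9_co.Dichotomy

open Pool.Agent.MP_ebf3a9_co.H25
open scoped ENNReal

theorem result (d k : ℕ) (hk : 1 < k) (hkd : k < d) (α : ℝ) (hα : 1 ≤ α) :
    ((HasPerfectFamily d (d - k) ∨ 2 * d + 2 ≤ (d - k + 1) ^ 2) →
      ∃ c C : ℝ, 0 < c ∧ 0 < C ∧ ∀ n : ℕ, 2 ≤ n →
        ENNReal.ofReal (c * (n : ℝ) ^ ((d : ℝ) / (d - k))) ≤ (piPerp d k α n : ℝ≥0∞) ∧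
        (piPerp d k α n : ℝ≥0∞) ≤ ENNReal.ofReal (C * (n : ℝ) ^ ((d : ℝ) / (d - k))) ∧
        ENNReal.ofReal (c * ((n : ℝ) / Real.log n) ^ ((d : ℝ) / (d - k))) ≤
          (piGen d k α n : ℝ≥0∞) ∧
        (piGen d k α n : ℝ≥0∞) ≤ ENNReal.ofReal (C * (n : ℝ) ^ ((d : ℝ) / (d - k)))) ∧
    (¬ HasPerfectFamily d (d - k) →
      ∃ δ C : ℝ, 0 < δ ∧ 0 < C ∧ ∀ n : ℕ, 2 ≤ n →
        (piPerp d k α n : ℝ≥0∞) ≤ ENNReal.ofReal (C * (n : ℝ) ^ ((d : ℝ) / (d - k) - δ)) ∧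
        (piGen d k α n : ℝ≥0∞) ≤ ENNReal.ofReal (C * (n : ℝ) ^ ((d : ℝ) / (d - k) - δ))) := by
  have hle : ∀ n, (piGen d k α n : ℝ≥0∞) ≤ (piPerp d k α n : ℝ≥0∞) := fun n => by
    exact_mod_cast piGen_le_piPerp d k α n
  refine ⟨fun h => ?_, fun h => ?_⟩
  · have hF : HasPerfectFamily d (d - k) :=
      h.elim id (hasPerfectFamily_cyclic (by omega) (by omega))
    obtain ⟨J, _, _, S, w, h1, h2, h3, h4, h5⟩ := hF.unpack hkd
    obtain ⟨c₁, hc₁, l₁⟩ := plain_lower hkd.le h1 h2 h3 h4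
    obtain ⟨c₂, hc₂, l₂⟩ := (design_plain h1 h2).lower hkd.le h3 h4
    obtain ⟨C, hC, u⟩ := upperA hkd
    rw [h5] at l₁ l₂
    refine ⟨min c₁ c₂, 2 * C, lt_min hc₁ hc₂, by positivity, fun n hn => ?_⟩
    have hu := piPerp_le (u α n (by omega))
    rw [← mul_assoc] at hu
    have := one_le_div_log hn
    refine ⟨le_trans (ENNReal.ofReal_le_ofReal ?_) (l₁ α hα n (by omega)), hu,
      le_trans (ENNReal.ofReal_le_ofReal ?_) (l₂ α hα n hn), (hle n).trans hu⟩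
    · gcongr; exact min_le_left _ _
    · gcongr; exact min_le_right _ _
  · obtain ⟨τ, hτ, hc⟩ := covered_of_no_family hkd h
    obtain ⟨C, hC, u⟩ := upperB hkd hc α (ε := ((d : ℝ) / (d - k) - τ) / 2) (by linarith)
    refine ⟨((d : ℝ) / (d - k) - τ) / 2, 2 * C, by linarith, by positivity, fun n hn => ?_⟩
    have hu := piPerp_le (u n (by omega))
    rw [← mul_assoc, show τ + ((d : ℝ) / (d - k) - τ) / 2 =
      (d : ℝ) / (d - k) - ((d : ℝ) / (d - k) - τ) / 2 by ring] at hu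
    exact ⟨hu, (hle n).trans hu⟩

end Pool.Agent.Results.MP_ebf3a9_co.Dichotomy
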