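import Pool.Agent.MP_ebf3a9_co.H25.Wheel

/-!
Lower bounds for binary space partitions of fat axis-aligned `k`-flats: the conjectured exponent
`(d - k + 1) / (d - k)` is exceeded for all `2 ≤ k ≤ d - 2`.
-/

namespace Pool.Agent.Results.MP_ebf3a9_co.Disproof

open Pool.Agent.MP_ebf3a9_co.H25
open scoped ENNReal

lemma lower_min {d k : ℕ} (hkd : k < d) :
    Lower d k (min ((d : ℝ) / (d - k)) ((Nat.sqrt d + 1) / 2)) := by
  by_cases h : d - k ≤ Nat.sqrt d
  · exact (lower_complete hkd h (Nat.sqrt_le' d)).mono (min_le_right _ _)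
  have hc : (0 : ℝ) < d - k := by rw [sub_pos]; exact_mod_cast hkd
  by_cases h2 : 2 * d + 2 ≤ (d - k + 1) ^ 2
  · exact (lower_cyclic hkd le_rfl (by omega) h2).mono (min_le_left _ _)
  set c := d - k with hcd
  have hcr : (c : ℝ) = d - k := by rw [hcd, Nat.cast_sub hkd.le]
  have hc2 : 2 ≤ c := by
    have : 0 < Nat.sqrt d := Nat.sqrt_pos.2 (by omega)
    omega
  set m := ((c + 1) ^ 2 - 2) / 2 with hm
  have e : (c + 1) ^ 2 = c * c + 2 * c + 1 := by ring
  have e2 : 2 * c ≤ c * c := Nat.mul_le_mul_right c hc2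
  refine (lower_cyclic (m := m) hkd (by omega) (by omega) (by rw [← hcd]; omega)).mono
    (min_le_of_right_le ?_)
  rw [← hcr, le_div_iff₀ (hcr ▸ hc)]
  have h3 : c * c ≤ 2 * m := by omega
  have h4 : ((Nat.sqrt d : ℕ) : ℝ) + 1 ≤ c := by exact_mod_cast not_le.1 h
  have h5 : (c : ℝ) * c ≤ 2 * m := by exact_mod_cast h3
  nlinarith [hcr ▸ hc]

lemma lower_max {d k : ℕ} {e e' : ℝ} (h : Lower d k e) (h' : Lower d k e') :
    Lower d k (max e e') := by
  rcases le_total e e' with h1 | h1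
  · rwa [max_eq_right h1]
  · rwa [max_eq_left h1]

theorem result (d k : ℕ) (hk : 1 < k) (hkd : k < d) (α : ℝ) (hα : 1 ≤ α) :
    ∃ e : ℝ, (k + 2 ≤ d → ((d : ℝ) - k + 1) / (d - k) < e) ∧
      (k + 2 = d → 2 - 1 / ((d : ℝ) - 1) ≤ e) ∧
      (k + 3 ≤ d → ((d : ℝ) - k + 2) / (d - k) ≤ e) ∧
      min ((d : ℝ) / (d - k)) ((Nat.sqrt d + 1) / 2) ≤ e ∧
      ∃ c : ℝ, 0 < c ∧ ∀ n : ℕ, 2 ≤ n →
        ENNReal.ofReal (c * ((n : ℝ) / Real.log n) ^ e) ≤ (piGen d k α n : ℝ≥0∞) ∧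
        piGen d k α n ≤ piPerp d k α n ∧ piPerp d k α n ≠ ⊤ := by
  have key : ∃ e : ℝ, (k + 2 = d → 2 - 1 / ((d : ℝ) - 1) ≤ e) ∧
      (k + 3 ≤ d → ((d : ℝ) - k + 2) / (d - k) ≤ e) ∧
      min ((d : ℝ) / (d - k)) ((Nat.sqrt d + 1) / 2) ≤ e ∧ Lower d k e := by
    by_cases h : k + 2 = d
    · have hw := lower_wheel (m := d - 3) h (by omega)
      refine ⟨_, fun _ => le_max_of_le_left (le_of_eq ?_), fun _ => by omega, le_max_right _ _,
        lower_max hw (lower_min hkd)⟩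
      rw [Nat.cast_sub (by omega)]; push_cast; ring_nf
    by_cases h' : k + 3 ≤ d
    · have hw := lower_cyclic (m := d - k + 2) hkd (by omega) (by omega) (by
        have : 3 ≤ d - k := by omega
        nlinarith)
      refine ⟨_, fun _ => by omega, fun _ => le_max_of_le_left (le_of_eq ?_), le_max_right _ _,
        lower_max hw (lower_min hkd)⟩
      rw [Nat.cast_add, Nat.cast_sub hkd.le]; norm_num
    · exact ⟨_, fun _ => by omega, fun _ => by omega, le_rfl, lower_min hkd⟩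
  obtain ⟨e, h1, h2, h3, c, hc, h4⟩ := key
  refine ⟨e, fun h => ?_, h1, h2, h3, c, hc, fun n hn => ⟨h4 α hα n hn,
    piGen_le_piPerp d k α n, fun h => ?_⟩⟩
  swap
  · obtain ⟨C, -, u⟩ := upperA hkd
    have hu := piPerp_le (u α n (by omega))
    rw [h, ENat.toENNReal_top, top_le_iff] at hu
    exact ENNReal.ofReal_ne_top hu
  have hc : (2 : ℝ) ≤ d - k := by
    have : (k : ℝ) + 2 ≤ d := by exact_mod_cast h
    linarith
  rcases h.eq_or_lt with h | h
  · refine lt_of_lt_of_le ?_ (h1 h)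
    have e1 : (d : ℝ) - k = 2 := by rw [← h]; push_cast; ring
    have e2 : (4 : ℝ) ≤ d := by exact_mod_cast (show 4 ≤ d by omega)
    have e3 : 1 / ((d : ℝ) - 1) ≤ 1 / 3 := by gcongr; linarith
    rw [e1]; linarith
  · refine lt_of_lt_of_le ?_ (h2 h)
    gcongr; norm_num

end Pool.Agent.Results.MP_ebf3a9_co.Disproof
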