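import Pool.Agent.MP_ebf3a9_co.H25.Small
import Pool.Agent.MP_ebf3a9_co.H25.Wheel
import Pool.Agent.MP_ebf3a9_co.H25.Poly

/-!
The exact exponents for `(d, k) = (4, 2), (4, 3), (5, 3)`.
-/

namespace Pool.Agent.Results.MP_ebf3a9_co.LowDim

open Pool.Agent.MP_ebf3a9_co.H25
open scoped ENNReal

theorem result (d k : ℕ) (e : ℝ)
    (h : (d = 4 ∧ k = 2 ∧ e = 5 / 3) ∨ (d = 4 ∧ k = 3 ∧ e = 3 / 2) ∨ (d = 5 ∧ k = 3 ∧ e = 7 / 4))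
    (α : ℝ) (hα : 1 ≤ α) (ε : ℝ) (hε : 0 < ε) :
    ∃ c C : ℝ, 0 < c ∧ 0 < C ∧ ∀ n : ℕ, 2 ≤ n →
      ENNReal.ofReal (c * ((n : ℝ) / Real.log n) ^ e) ≤ (piGen d k α n : ℝ≥0∞) ∧
      piGen d k α n ≤ piPerp d k α n ∧
      (piPerp d k α n : ℝ≥0∞) ≤ ENNReal.ofReal (C * (n : ℝ) ^ (e + ε)) := by
  have key : k < d ∧ Lower d k e ∧ Covered d k e := by
    rcases h with ⟨rfl, rfl, rfl⟩ | ⟨rfl, rfl, rfl⟩ | ⟨rfl, rfl, rfl⟩
    · exact ⟨by norm_num, (lower_wheel (m := 1) rfl le_rfl).mono (by norm_num), covered_4_2⟩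
    · exact ⟨by norm_num, (lower_complete (q := 2) (by norm_num) (by norm_num) (by norm_num)).mono
        (by norm_num), covered_4_3⟩
    · exact ⟨by norm_num, (lower_wheel (m := 2) rfl le_rfl).mono (by norm_num), covered_5_3⟩
  obtain ⟨hk, ⟨c, hc, l⟩, hcov⟩ := key
  obtain ⟨C, hC, u⟩ := hcov.upper hk α hε
  exact ⟨c, C, hc, hC, fun n hn => ⟨l α hα n hn, piGen_le_piPerp d k α n, u n (by omega)⟩⟩

end Pool.Agent.Results.MP_ebf3a9_co.LowDim
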